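import Pool.Agent.W836.SH.Stm

/-!
# SH-AP
-/
set_option autoImplicit false

open scoped Classical

namespace Pool.Agent.W202.SH.AP

open Pool.Agent.W836.SH

noncomputable section

variable {ι : Type}

/-- indicator -/
def ch (a : ι) (S : Finset ι) : ℝ := if a ∈ S then 1 else 0

theorem ch_of {a : ι} {S : Finset ι} (h : a ∈ S) : ch a S = 1 := if_pos h
theorem ch_of_not {a : ι} {S : Finset ι} (h : a ∉ S) : ch a S = 0 := if_neg h

/-- the three by three determinant of differences -/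
def D3 (x y z : Fin 4 → ℝ) : ℝ :=
  (x 1 - x 0) * ((y 2 - y 0) * (z 3 - z 0) - (y 3 - y 0) * (z 2 - z 0))
  - (x 2 - x 0) * ((y 1 - y 0) * (z 3 - z 0) - (y 3 - y 0) * (z 1 - z 0))
  + (x 3 - x 0) * ((y 1 - y 0) * (z 2 - z 0) - (y 2 - y 0) * (z 1 - z 0))

theorem IM3 (r : Fin 3 → ι) (S : Fin 4 → Finset ι) :
    (IM r S).det = D3 (fun j => ch (r 0) (S j)) (fun j => ch (r 1) (S j)) (fun j => ch (r 2) (S j)) := by
  have e : IM r S = Matrix.of ![![1, 1, 1, 1], fun j => ch (r 0) (S j), fun j => ch (r 1) (S j),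
      fun j => ch (r 2) (S j)] := by
    ext i j
    fin_cases i
    · fin_cases j <;> rfl
    · rfl
    · rfl
    · rfl
  rw [e, Matrix.det_succ_row_zero]
  simp [Fin.sum_univ_succ, Matrix.det_fin_three, Fin.succAbove, D3]
  ring

theorem FV3 {F : Finset (Finset ι)} (h : FV F) (a b c : ι) (S : Fin 4 → Finset ι)
    (hS : ∀ j, S j ∈ F) :
    |D3 (fun j => ch a (S j)) (fun j => ch b (S j)) (fun j => ch c (S j))| < 2 := by
  have := h 3 ![a, b, c] S hS
  rw [IM3] at this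
  exact this

theorem FW3 {τ : ℝ} {o : ι → ℝ} {F : Finset (Finset ι)} (h : FW τ o F) (a b c : ι)
    (S : Fin 4 → Finset ι) (l : Fin 4 → ℝ) (hS : ∀ j, S j ∈ F)
    (ha : l 0 * ch a (S 0) + l 1 * ch a (S 1) + l 2 * ch a (S 2) + l 3 * ch a (S 3) = o a)
    (hb : l 0 * ch b (S 0) + l 1 * ch b (S 1) + l 2 * ch b (S 2) + l 3 * ch b (S 3) = o b)
    (hc : l 0 * ch c (S 0) + l 1 * ch c (S 1) + l 2 * ch c (S 2) + l 3 * ch c (S 3) = o c)
    (hs : l 0 + l 1 + l 2 + l 3 = 1)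
    (hd : |D3 (fun j => ch a (S j)) (fun j => ch b (S j)) (fun j => ch c (S j))| = 1) :
    max (-(l 0)) 0 + max (-(l 1)) 0 + max (-(l 2)) 0 + max (-(l 3)) 0 ≤ τ := by
  have := h 3 ![a, b, c] S l hS ?_ ?_ ?_
  · rw [Fin.sum_univ_four] at this
    exact this
  · intro i
    rw [Fin.sum_univ_four]
    fin_cases i
    · exact ha
    · exact hb
    · exact hc
  · rw [Fin.sum_univ_four]; exact hs
  · rw [IM3]; exact hd

theorem mem_Zf {i : ι} {F : Finset (Finset ι)} {Y : Finset ι} (h : Y ∈ Zf i F) :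
    Y ∈ F ∧ i ∉ Y ∧ insert i Y ∈ F := by
  unfold Zf at h
  rw [Finset.mem_filter] at h
  exact ⟨h.1, h.2.1, h.2.2⟩

/-- the core: three members with centre `C` -/
theorem core {F : Finset (Finset ι)} {o : ι → ℝ} {τ : ℝ} {i : ι} (ht : τ < 1 / 2) (hF : FW τ o F)
    (hi : τ ≤ o i) {C A B : Finset ι} (hC : C ∈ Zf i F) (hA : A ∈ Zf i F) (hB : B ∈ Zf i F)
    {a b : ι} (hai : a ≠ i) (hbi : b ≠ i) (h1 : a ∈ A ↔ a ∉ C) (h2 : b ∈ A ↔ b ∈ C)
    (h3 : a ∈ B ↔ a ∈ C) (h4 : b ∈ B ↔ b ∉ C) (ha : o i ≤ o a ∧ o a ≤ 1 / 2)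
    (hb : o i ≤ o b ∧ o b ≤ 1 / 2) :
    (a ∈ A ∧ a ∉ C ∧ a ∉ B ∧ b ∈ B ∧ b ∉ C ∧ b ∉ A) ∧ o i = τ ∧ o a = τ ∧ o b = τ ∧ 1 / 3 ≤ τ := by
  obtain ⟨hC1, hC2, hC3⟩ := mem_Zf hC
  obtain ⟨hA1, hA2, hA3⟩ := mem_Zf hA
  obtain ⟨hB1, hB2, hB3⟩ := mem_Zf hB
  have mi : ∀ S : Finset ι, ch i (insert i S) = 1 := fun S => ch_of (Finset.mem_insert_self _ _)
  have ma : ∀ S : Finset ι, ch a (insert i S) = ch a S := fun S => by
    simp [ch, Finset.mem_insert, hai]
  have mb : ∀ S : Finset ι, ch b (insert i S) = ch b S := fun S => by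
    simp [ch, Finset.mem_insert, hbi]
  -- first inequality for all orientations
  have key : ∀ α β : ℝ, (a ∈ A → α = o a) → (a ∉ A → α = 1 - o a) → (b ∈ B → β = o b) →
      (b ∉ B → β = 1 - o b) → α + β - o i ≤ τ := by
    intro α β hα hα' hβ hβ'
    have hcA : (ch a A = 1 ∧ ch a C = 0 ∧ ch a B = 0 ∧ α = o a) ∨
        (ch a A = 0 ∧ ch a C = 1 ∧ ch a B = 1 ∧ α = 1 - o a) := by
      by_cases h : a ∈ A
      · have hc := h1.1 h
        exact Or.inl ⟨ch_of h, ch_of_not hc, ch_of_not (fun h' => hc (h3.1 h')), hα h⟩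
      · have hc : a ∈ C := by by_contra hc; exact h (h1.2 hc)
        exact Or.inr ⟨ch_of_not h, ch_of hc, ch_of (h3.2 hc), hα' h⟩
    have hcB : (ch b B = 1 ∧ ch b C = 0 ∧ ch b A = 0 ∧ β = o b) ∨
        (ch b B = 0 ∧ ch b C = 1 ∧ ch b A = 1 ∧ β = 1 - o b) := by
      by_cases h : b ∈ B
      · have hc := h4.1 h
        exact Or.inl ⟨ch_of h, ch_of_not hc, ch_of_not (fun h' => hc (h2.1 h')), hβ h⟩
      · have hc : b ∈ C := by by_contra hc; exact h (h4.2 hc)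
        exact Or.inr ⟨ch_of_not h, ch_of hc, ch_of (h2.2 hc), hβ' h⟩
    have hh := FW3 hF a b i ![C, insert i C, insert i A, insert i B]
      ![1 - o i, o i - α - β, α, β] (by
        intro j
        fin_cases j
        · exact hC1
        · exact hC3
        · exact hA3
        · exact hB3) ?_ ?_ ?_ ?_ ?_
    · simp only [Matrix.cons_val_zero, Matrix.cons_val_one, Matrix.cons_val] at hh
      have e1 := le_max_left (-(o i - α - β)) 0
      have e2 := le_max_right (-(1 - o i)) 0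
      have e3 := le_max_right (-α) 0
      have e4 := le_max_right (-β) 0
      linarith
    · simp only [Matrix.cons_val_zero, Matrix.cons_val_one, Matrix.cons_val, ma]
      rcases hcA with ⟨e1, e2, e3, e4⟩ | ⟨e1, e2, e3, e4⟩
      · rw [e1, e2, e3, e4]; ring
      · rw [e1, e2, e3]; linarith
    · simp only [Matrix.cons_val_zero, Matrix.cons_val_one, Matrix.cons_val, mb]
      rcases hcB with ⟨e1, e2, e3, e4⟩ | ⟨e1, e2, e3, e4⟩
      · rw [e1, e2, e3, e4]; ring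
      · rw [e1, e2, e3]; linarith
    · simp only [Matrix.cons_val_zero, Matrix.cons_val_one, Matrix.cons_val, mi]
      rw [ch_of_not hC2]; ring
    · simp only [Matrix.cons_val_zero, Matrix.cons_val_one, Matrix.cons_val]
      ring
    · simp only [D3, Matrix.cons_val_zero, Matrix.cons_val_one, Matrix.cons_val, mi, ma, mb]
      rw [ch_of_not hC2]
      rcases hcA with ⟨e1, e2, e3, e4⟩ | ⟨e1, e2, e3, e4⟩ <;>
        rcases hcB with ⟨f1, f2, f3, f4⟩ | ⟨f1, f2, f3, f4⟩ <;>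
          rw [e1, e2, e3, f1, f2, f3] <;> norm_num
  have haA : a ∈ A ∧ b ∈ B ∧ o i = τ ∧ o a = τ ∧ o b = τ := by
    by_cases h : a ∈ A
    · by_cases h' : b ∈ B
      · have k := key (o a) (o b) (fun _ => rfl) (fun k => absurd h k) (fun _ => rfl)
          (fun k => absurd h' k)
        exact ⟨h, h', by linarith, by linarith, by linarith⟩
      · exfalso
        have k := key (o a) (1 - o b) (fun _ => rfl) (fun k => absurd h k) (fun k => absurd k h')
          (fun _ => rfl)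
        linarith
    · exfalso
      by_cases h' : b ∈ B
      · have k := key (1 - o a) (o b) (fun k => absurd k h) (fun _ => rfl) (fun _ => rfl)
          (fun k => absurd h' k)
        linarith
      · have k := key (1 - o a) (1 - o b) (fun k => absurd k h) (fun _ => rfl)
          (fun k => absurd k h') (fun _ => rfl)
        linarith
  obtain ⟨q1, q2, q3, q4, q5⟩ := haA
  have q6 := h1.1 q1
  have q7 := h4.1 q2
  have q8 : a ∉ B := fun h => q6 (h3.1 h)
  have q9 : b ∉ A := fun h => q7 (h2.1 h)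
  refine ⟨⟨q1, q6, q8, q2, q7, q9⟩, q3, q4, q5, ?_⟩
  have hh := FW3 hF a b i ![A, insert i A, insert i C, insert i B]
      ![1 - τ, 2 * τ - 1, 1 - 2 * τ, τ] (by
        intro j
        fin_cases j
        · exact hA1
        · exact hA3
        · exact hC3
        · exact hB3) ?_ ?_ ?_ ?_ ?_
  · simp only [Matrix.cons_val_zero, Matrix.cons_val_one, Matrix.cons_val] at hh
    have e1 := le_max_left (-(2 * τ - 1)) 0
    have e2 := le_max_right (-(1 - τ)) 0
    have e3 := le_max_right (-(1 - 2 * τ)) 0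
    have e4 := le_max_right (-τ) 0
    linarith
  · simp only [Matrix.cons_val_zero, Matrix.cons_val_one, Matrix.cons_val, ma]
    rw [ch_of q1, ch_of_not q6, ch_of_not q8, q4]; ring
  · simp only [Matrix.cons_val_zero, Matrix.cons_val_one, Matrix.cons_val, mb]
    rw [ch_of q2, ch_of_not q7, ch_of_not q9, q5]; ring
  · simp only [Matrix.cons_val_zero, Matrix.cons_val_one, Matrix.cons_val, mi]
    rw [ch_of_not hA2, q3]; ring
  · simp only [Matrix.cons_val_zero, Matrix.cons_val_one, Matrix.cons_val]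
    ring
  · simp only [D3, Matrix.cons_val_zero, Matrix.cons_val_one, Matrix.cons_val, mi, ma, mb]
    rw [ch_of_not hA2, ch_of q1, ch_of_not q6, ch_of_not q8, ch_of q2, ch_of_not q7, ch_of_not q9]
    norm_num

theorem sep {Y Y' : Finset ι} (h : Y ≠ Y') : ∃ a, (a ∈ Y ∧ a ∉ Y') ∨ (a ∈ Y' ∧ a ∉ Y) := by
  by_contra hc
  push Not at hc
  apply h
  ext a
  exact ⟨(hc a).1, (hc a).2⟩

theorem main : S_AP := by
  intro ι F o τ i ht0 ht hFG hi hcard hrow
  obtain ⟨hFW, hFV, -⟩ := hFG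
  have hrow' : ∀ a, ∀ Y ∈ Zf i F, ∀ Y' ∈ Zf i F, (a ∈ Y ↔ a ∉ Y') → a ≠ i ∧ o i ≤ o a ∧ o a ≤ 1 / 2 := by
    intro a Y hY Y' hY' h
    by_cases ha : a ∈ Y
    · refine ⟨?_, hrow a Y hY Y' hY' ha (h.1 ha)⟩
      rintro rfl; exact (mem_Zf hY).2.1 ha
    · have ha' : a ∈ Y' := by by_contra hc; exact ha (h.2 hc)
      refine ⟨?_, hrow a Y' hY' Y hY ha' ha⟩
      rintro rfl; exact (mem_Zf hY').2.1 ha'
  -- the core for members
  have hcore : ∀ C ∈ Zf i F, ∀ A ∈ Zf i F, ∀ B ∈ Zf i F, ∀ a b, (a ∈ A ↔ a ∉ C) → (b ∈ A ↔ b ∈ C) →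
      (a ∈ B ↔ a ∈ C) → (b ∈ B ↔ b ∉ C) →
      (a ∈ A ∧ a ∉ C ∧ a ∉ B ∧ b ∈ B ∧ b ∉ C ∧ b ∉ A) ∧ o i = τ ∧ o a = τ ∧ o b = τ ∧ 1 / 3 ≤ τ := by
    intro C hC A hA B hB a b h1 h2 h3 h4
    have ra := hrow' a A hA C hC h1
    have rb := hrow' b B hB C hC h4
    exact core ht hFW hi hC hA hB ra.1 rb.1 h1 h2 h3 h4 ra.2 rb.2
  -- three members give the conclusion of the core
  have three : ∀ Y ∈ Zf i F, ∀ Y' ∈ Zf i F, ∀ Y'' ∈ Zf i F, ∀ a b, (a ∈ Y ↔ a ∉ Y') → (a ∈ Y'' ↔ a ∈ Y') →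
      (b ∈ Y'' ↔ b ∉ Y') → a ∈ Y ∧ a ∉ Y' ∧ o i = τ ∧ o a = τ ∧ 1 / 3 ≤ τ := by
    intro Y hY Y' hY' Y'' hY'' a b h1 h2 h3
    by_cases hb : b ∈ Y ↔ b ∈ Y'
    · have := hcore Y' hY' Y hY Y'' hY'' a b h1 hb h2 h3
      exact ⟨this.1.1, this.1.2.1, this.2.1, this.2.2.1, this.2.2.2.2⟩
    · have hb' : b ∈ Y ↔ b ∈ Y'' := by
        rw [h3]
        by_cases k : b ∈ Y <;> by_cases k' : b ∈ Y' <;> simp_all
      have h4 : a ∈ Y ↔ a ∉ Y'' := by rw [h1, h2]
      have h5 : b ∈ Y' ↔ b ∉ Y'' := by rw [h3, not_not]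
      have := hcore Y'' hY'' Y hY Y' hY' a b h4 hb' h2.symm h5
      exact ⟨this.1.1, this.1.2.2.1, this.2.1, this.2.2.1, this.2.2.2.2⟩
  -- (3)
  have uniq : ∀ a, ∀ Y ∈ Zf i F, ∀ Y' ∈ Zf i F, a ∈ Y → a ∉ Y' → ∀ Y'' ∈ Zf i F, a ∈ Y'' → Y'' = Y := by
    intro a Y hY Y' hY' ha ha' Y'' hY'' ha''
    by_contra hne
    obtain ⟨b, hb⟩ := sep hne
    -- `Y'` differs from `Y`, `Y''` in `a`, and these differ in `b`
    have h3 : b ∈ Y'' ↔ b ∉ Y := by
      rcases hb with ⟨k1, k2⟩ | ⟨k1, k2⟩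
      · exact ⟨fun _ => k2, fun _ => k1⟩
      · exact ⟨fun k => absurd k k2, fun k => absurd k1 k⟩
    have := three Y' hY' Y hY Y'' hY'' a b ⟨fun k => absurd k ha', fun k => absurd ha k⟩
      ⟨fun _ => ha, fun _ => ha''⟩ h3
    exact ha' this.1
  have third : ∀ Y ∈ Zf i F, ∀ Y' ∈ Zf i F, ∃ Y'' ∈ Zf i F, Y'' ≠ Y ∧ Y'' ≠ Y' := by
    intro Y hY Y' hY'
    by_contra hc
    push Not at hc
    have hsub : Zf i F ⊆ {Y, Y'} := by
      intro Y'' hY''
      rw [Finset.mem_insert, Finset.mem_singleton]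
      by_cases h : Y'' = Y
      · exact Or.inl h
      · exact Or.inr (hc Y'' hY'' h)
    have := (Finset.card_le_card hsub).trans Finset.card_le_two
    omega
  have oa : ∀ a, ∀ Y ∈ Zf i F, ∀ Y' ∈ Zf i F, a ∈ Y → a ∉ Y' → o i = τ ∧ o a = τ ∧ 1 / 3 ≤ τ := by
    intro a Y hY Y' hY' ha ha'
    obtain ⟨Y'', hY'', n1, n2⟩ := third Y hY Y' hY'
    have ha'' : a ∉ Y'' := fun k => n1 (uniq a Y hY Y' hY' ha ha' Y'' hY'' k)
    obtain ⟨b, hb⟩ := sep n2
    have h3 : b ∈ Y'' ↔ b ∉ Y' := by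
      rcases hb with ⟨k1, k2⟩ | ⟨k1, k2⟩
      · exact ⟨fun _ => k2, fun _ => k1⟩
      · exact ⟨fun k => absurd k k2, fun k => absurd k1 k⟩
    have := three Y hY Y' hY' Y'' hY'' a b ⟨fun _ => ha', fun _ => ha⟩
      ⟨fun k => absurd k ha'', fun k => absurd k ha'⟩ h3
    exact ⟨this.2.2.1, this.2.2.2.1, this.2.2.2.2⟩
  -- some separating row
  obtain ⟨Y0, hY0, Y1, hY1, hne01⟩ : ∃ Y ∈ Zf i F, ∃ Y' ∈ Zf i F, Y ≠ Y' := by
    obtain ⟨Y, hY, Y', hY', hne⟩ := Finset.one_lt_card.1 (show 1 < (Zf i F).card by omega)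
    exact ⟨Y, hY, Y', hY', hne⟩
  have hbase : o i = τ ∧ 1 / 3 ≤ τ := by
    obtain ⟨a, ha⟩ := sep hne01
    rcases ha with ⟨k1, k2⟩ | ⟨k1, k2⟩
    · have := oa a Y0 hY0 Y1 hY1 k1 k2; exact ⟨this.1, this.2.2⟩
    · have := oa a Y1 hY1 Y0 hY0 k1 k2; exact ⟨this.1, this.2.2⟩
  -- (4)
  have hcard3 : (Zf i F).card = 3 := by
    by_contra hc
    have h4 : 4 ≤ (Zf i F).card := by omega
    set Z' := (Zf i F).filter (fun Y => ∃ a ∈ Y, ∀ Y' ∈ Zf i F, a ∈ Y' → Y' = Y) with hZ'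
    have hrest : ((Zf i F).filter (fun Y => ¬ ∃ a ∈ Y, ∀ Y' ∈ Zf i F, a ∈ Y' → Y' = Y)).card ≤ 1 := by
      rw [Finset.card_le_one]
      intro Y hY Y' hY'
      rw [Finset.mem_filter] at hY hY'
      by_contra hne
      obtain ⟨a, ha⟩ := sep hne
      rcases ha with ⟨k1, k2⟩ | ⟨k1, k2⟩
      · exact hY.2 ⟨a, k1, uniq a Y hY.1 Y' hY'.1 k1 k2⟩
      · exact hY'.2 ⟨a, k1, uniq a Y' hY'.1 Y hY.1 k1 k2⟩
    have hsum := Finset.card_filter_add_card_filter_not (s := Zf i F)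
      (fun Y => ∃ a ∈ Y, ∀ Y' ∈ Zf i F, a ∈ Y' → Y' = Y)
    have hZ3 : 2 < Z'.card := by
      rw [hZ']
      omega
    obtain ⟨A1, hA1, A2, hA2, A3, hA3, n12, n13, n23⟩ := Finset.two_lt_card.1 hZ3
    rw [hZ', Finset.mem_filter] at hA1 hA2 hA3
    obtain ⟨hA1, a1, ha1, u1⟩ := hA1
    obtain ⟨hA2, a2, ha2, u2⟩ := hA2
    obtain ⟨hA3, a3, ha3, u3⟩ := hA3
    obtain ⟨A4, hA4, n41, n42, n43⟩ : ∃ A4 ∈ Zf i F, A4 ≠ A1 ∧ A4 ≠ A2 ∧ A4 ≠ A3 := by
      by_contra hc'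
      push Not at hc'
      have hsub : Zf i F ⊆ {A1, A2, A3} := by
        intro Y hY
        rw [Finset.mem_insert, Finset.mem_insert, Finset.mem_singleton]
        by_cases h : Y = A1
        · exact Or.inl h
        · by_cases h' : Y = A2
          · exact Or.inr (Or.inl h')
          · exact Or.inr (Or.inr (hc' Y hY h h'))
      have := (Finset.card_le_card hsub).trans Finset.card_le_three
      omega
    have m1 := mem_Zf hA1
    have m2 := mem_Zf hA2
    have m3 := mem_Zf hA3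
    have m4 := mem_Zf hA4
    have x12 : a1 ∉ A2 := fun k => n12 (u1 _ hA2 k).symm
    have x13 : a1 ∉ A3 := fun k => n13 (u1 _ hA3 k).symm
    have x14 : a1 ∉ A4 := fun k => n41 (u1 _ hA4 k)
    have x21 : a2 ∉ A1 := fun k => n12 (u2 _ hA1 k)
    have x23 : a2 ∉ A3 := fun k => n23 (u2 _ hA3 k).symm
    have x24 : a2 ∉ A4 := fun k => n42 (u2 _ hA4 k)
    have x31 : a3 ∉ A1 := fun k => n13 (u3 _ hA1 k)
    have x32 : a3 ∉ A2 := fun k => n23 (u3 _ hA2 k)
    have x34 : a3 ∉ A4 := fun k => n43 (u3 _ hA4 k)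
    have e1 : a1 ≠ i := by rintro rfl; exact m1.2.1 ha1
    have e2 : a2 ≠ i := by rintro rfl; exact m2.2.1 ha2
    have e3 : a3 ≠ i := by rintro rfl; exact m3.2.1 ha3
    have o1 := (oa a1 A1 hA1 A2 hA2 ha1 x12).2.1
    have o2 := (oa a2 A2 hA2 A1 hA1 ha2 x21).2.1
    have o3 := (oa a3 A3 hA3 A1 hA1 ha3 x31).2.1
    have hh := hFW 4 ![a1, a2, a3, i] ![A4, insert i A4, insert i A1, insert i A2, insert i A3]
      ![1 - τ, -(2 * τ), τ, τ, τ] ?_ ?_ ?_ ?_
    · simp only [Fin.sum_univ_succ, Fin.sum_univ_zero, Matrix.cons_val_zero, Matrix.cons_val_succ,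
        Matrix.cons_val_one, Matrix.cons_val, Fin.succ_zero_eq_one, Fin.succ_one_eq_two] at hh
      have t1 := le_max_left (-(-(2 * τ))) 0
      have t2 := le_max_right (-(1 - τ)) 0
      have t3 := le_max_right (-τ) 0
      linarith
    · intro j
      fin_cases j
      · exact m4.1
      · exact m4.2.2
      · exact m1.2.2
      · exact m2.2.2
      · exact m3.2.2
    · intro j
      fin_cases j
      · simp [Fin.sum_univ_succ, Finset.mem_insert, e1, ha1, x12, x13, x14, o1]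
      · simp [Fin.sum_univ_succ, Finset.mem_insert, e2, ha2, x21, x23, x24, o2]
      · simp [Fin.sum_univ_succ, Finset.mem_insert, e3, ha3, x31, x32, x34, o3]
      · simp [Fin.sum_univ_succ, Finset.mem_insert, m4.2.1, hbase.1]
        ring
    · simp [Fin.sum_univ_succ]
      ring
    · have e : IM ![a1, a2, a3, i] ![A4, insert i A4, insert i A1, insert i A2, insert i A3]
          = Matrix.of ![![(1 : ℝ), 1, 1, 1, 1], ![0, 0, 1, 0, 0], ![0, 0, 0, 1, 0], ![0, 0, 0, 0, 1],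
            ![0, 1, 1, 1, 1]] := by
        ext p q
        refine Fin.cases ?_ (fun p' => ?_) p
        · fin_cases q <;> rfl
        · show (if (![a1, a2, a3, i] : Fin 4 → ι) p' ∈
              (![A4, insert i A4, insert i A1, insert i A2, insert i A3] : Fin 5 → Finset ι) q
              then (1 : ℝ) else 0) = _
          fin_cases p' <;> fin_cases q <;>
            simp [Finset.mem_insert, e1, e2, e3, ha1, ha2, ha3, x12, x13, x14, x21, x23, x24, x31,
              x32, x34, m4.2.1]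
      rw [e]
      simp [Matrix.det_succ_row_zero, Fin.sum_univ_succ, Fin.succAbove]
  refine ⟨hbase.1, hbase.2, hcard3, ?_, ?_⟩
  · intro a Y hY Y' hY' ha ha'
    exact ⟨(oa a Y hY Y' hY' ha ha').2.1, uniq a Y hY Y' hY' ha ha'⟩
  · intro a b Y hY Y' hY' ha ha' hb hb' S hS hab
    obtain ⟨Y'', hY'', n1, n2⟩ := third Y hY Y' hY'
    have c1 : a ∉ Y'' := fun k => n1 (uniq a Y hY Y' hY' ha ha' Y'' hY'' k)
    have c2 : b ∉ Y'' := fun k => n2 (uniq b Y' hY' Y hY hb hb' Y'' hY'' k)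
    have m := mem_Zf hY
    have m' := mem_Zf hY'
    have m'' := mem_Zf hY''
    have hai : a ≠ i := by rintro rfl; exact m.2.1 ha
    have hbi : b ≠ i := by rintro rfl; exact m'.2.1 hb
    have mi : ∀ S : Finset ι, ch i (insert i S) = 1 := fun S => ch_of (Finset.mem_insert_self _ _)
    have ma : ∀ S : Finset ι, ch a (insert i S) = ch a S := fun S => by
      simp [ch, Finset.mem_insert, hai]
    have mb : ∀ S : Finset ι, ch b (insert i S) = ch b S := fun S => by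
      simp [ch, Finset.mem_insert, hbi]
    by_cases hiS : i ∈ S
    · have hh := FV3 hFV a b i ![S, insert i Y'', Y, Y'] (by
        intro j
        fin_cases j
        · exact hS
        · exact m''.2.2
        · exact m.1
        · exact m'.1)
      simp only [D3, Matrix.cons_val_zero, Matrix.cons_val_one, Matrix.cons_val, mi, ma, mb] at hh
      rw [ch_of hab.1, ch_of hab.2, ch_of hiS, ch_of_not c1, ch_of_not c2, ch_of ha, ch_of_not hb',
        ch_of_not ha', ch_of hb, ch_of_not m.2.1, ch_of_not m'.2.1] at hh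
      norm_num at hh
    · have hh := FV3 hFV a b i ![S, Y'', insert i Y, insert i Y'] (by
        intro j
        fin_cases j
        · exact hS
        · exact m''.1
        · exact m.2.2
        · exact m'.2.2)
      simp only [D3, Matrix.cons_val_zero, Matrix.cons_val_one, Matrix.cons_val, mi, ma, mb] at hh
      rw [ch_of hab.1, ch_of hab.2, ch_of_not hiS, ch_of_not c1, ch_of_not c2, ch_of ha, ch_of_not hb',
        ch_of_not ha', ch_of hb, ch_of_not m''.2.1] at hh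
      norm_num at hh

end

end Pool.Agent.W202.SH.AP
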